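import Pool.Agent.Lon.Shp

/-!
# Geometricity in the quadratic range on discriminant complements

Loenne's groups: the fundamental groups of the discriminant complements of the singularities
`x_1 ^ (l_1 + 1) + ... + x_n ^ (l_n + 1)`; the fundamental groups of the spaces of smooth
hypersurfaces are quotients of them (`l i = d - 1`).
-/

namespace Pool.Agent.Results.MP_e3793a_ag.DiscriminantQuadratic

open Pool.Agent.Lon

/-- Let `n ≥ 1`, `l i ≥ 6`, and let `G` be generated by elements `t x`, `x` in the box with sides
`l`, which satisfy the relations of Loenne. Let `ρ` be an irreducible complex representation of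
`G` on `V`, of dimension in the range `InRange l` (dimension less than
`(1 / 2 - o(1)) μ ^ 2`, `μ = ∏ l i`, if one `l i` is large; for `n = 1` this is the braid group on
`l + 1` strands). Then `V` is of dimension one, or a reflection representation modulo its radical
(`Refl`), or `n = 1` and `V` is monomial (`Mono`). If moreover all eigenvalues of the `ρ (t x)`
are roots of unity (`QU`), then `ρ` has finite image or `V` is, up to a factor of finite order, a
quotient of the vanishing homology of the singularity plus `y ^ N` (`Vanishing`). -/
theorem result {n : ℕ} (hn : 1 ≤ n) {l : Fin n → ℕ} (hl : ∀ i, 6 ≤ l i)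
    {G : Type*} [Group G] {t : (Fin n → ℕ) → G} (h : Lonne l t)
    {V : Type*} [AddCommGroup V] [Module ℂ V] [FiniteDimensional ℂ V]
    (ρ : Representation ℂ G V) [ρ.IsIrreducible] (hV : InRange l (Module.finrank ℂ V)) :
    (Module.finrank ℂ V = 1 ∨ Refl l t ρ ∨ Mono l t ρ) ∧
      (QU l t ρ → (Set.range ρ).Finite ∨ Vanishing l t ρ) :=
  main_thm hn hl h ρ hV

end Pool.Agent.Results.MP_e3793a_ag.DiscriminantQuadratic
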