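import Pool.Agent.EG14.Fo
import Pool.Agent.EG14.Stmt

/-!
# Representations of mapping class groups come from few punctures

Every semisimple complex representation of rank `r` of the pure mapping class group of a surface of
genus `g ≥ 1` with one boundary component and any number of punctures comes, on a subgroup of finite
index, from at most `5 (r - 1)` of the punctures.
-/

set_option autoImplicit false

namespace Pool.Agent.Results.MP_e3793a_ag.EveryGenus

open Pool.Agent.EG14

/-- Let `g ≥ 1` and let `ρ` be a semisimple representation of finite dimension `r` of the pure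
mapping class group `Mod g n` of the surface of genus `g` with `n` punctures and one boundary
component.  There is `m ≤ 5 (r - 1)` such that on a subgroup of finite index `ρ` is the pullback of
a representation of `Mod g m` under the homomorphism which forgets all but `m` punctures. -/
theorem result {g n : ℕ} (hg : 1 ≤ g) {V : Type*} [AddCommGroup V] [Module ℂ V]
    [FiniteDimensional ℂ V] (ρ : Representation ℂ (Mod g n) V)
    [ρ.IsSemisimpleRepresentation] :
    ∃ m ≤ 5 * (Module.finrank ℂ V - 1), ComesFrom ρ m := by
  have hss : ∀ W : Submodule ℂ V, (∀ γ, ∀ w ∈ W, ρ γ w ∈ W) → ∃ W' : Submodule ℂ V,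
      (∀ γ, ∀ w ∈ W', ρ γ w ∈ W') ∧ IsCompl W W' := by
    intro W hW
    obtain ⟨W', h1⟩ := exists_isCompl (⟨W, fun γ w hw => hW γ w hw⟩ : Subrepresentation ρ)
    refine ⟨W'.toSubmodule, fun γ w hw => W'.apply_mem_toSubmodule γ hw, ?_⟩
    rw [isCompl_iff, disjoint_iff, codisjoint_iff] at h1 ⊢
    exact ⟨congrArg Subrepresentation.toSubmodule h1.1,
      congrArg Subrepresentation.toSubmodule h1.2⟩
  obtain ⟨m, e, F, σ, H, hm, hF, hH, h⟩ := every_genus (g := g) (n := n) hg (V := V) ρ hss
  exact ⟨m, hm, e, F, σ, H, hF, hH, h⟩

end Pool.Agent.Results.MP_e3793a_ag.EveryGenus
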