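import Pool.Agent.EG80.Top

/-!
# Semisimple local systems of rank below an exponential bound on moduli spaces of curves

If `2 m + 2 ≤ g`, then every semisimple representation of dimension less than `4 ^ m` of the mapping
class group of the surface of genus `g` with `n + 1` marked points and one boundary component is a
quotient of a subrepresentation of a direct sum of tensor powers of the first cohomology of the
closed surface.
-/

namespace Pool.Agent.Results.MP_e3793a_ag.ExponentialRange

open Pool.Agent.HG13 Pool.Agent.EG80

/-- Let `2 m + 2 ≤ g`, let `Γ` be the group of automorphisms of the free group `F = Fr g n`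
generated by the Dehn twists `Bt i` and `TP s t` (the elements of `twists g n`), and let `ρ` be a
semisimple representation of dimension less than `4 ^ m` of `F ⋊ Γ`. Then `F` acts trivially, and
`ρ` is a quotient of a subrepresentation of a finite direct sum of spaces of multilinear forms on
the first homology of the closed surface of genus `g`. -/
theorem result (g n m : ℕ) (hg : 2 * m + 2 ≤ g) (Γ : Subgroup (MulAut (Fr g n)))
    (hΓ : Γ = Subgroup.closure (twists g n)) {V : Type*} [AddCommGroup V] [Module ℂ V]
    [FiniteDimensional ℂ V] (ρ : Representation ℂ (ModG Γ) V) (hs : Semis ρ)
    (hV : Module.finrank ℂ V < 4 ^ m) : Geo ρ :=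
  exponential_range g n m hg Γ hΓ ρ hs hV

end Pool.Agent.Results.MP_e3793a_ag.ExponentialRange
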