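import Pool.Agent.PF54.Final

/-!
# Local systems of every rank on all configuration spaces of points of the line

Every irreducible complex representation of rank `r` of a pure braid group, on any number of
strands, is up to a character a subrepresentation of the first cohomology of a cyclic cover of the
line, or pulled back from the configurations of at most `r + 1` (if `r = 4`: `6`) points of the
projective line, or, if `r` is `4`, `6` or `8`, a tensor product with a factor of rank two from
the line minus three points.
-/

namespace Pool.Agent.Results.MP_e3793a_ag.PureFormanek

open Pool.Agent.Conf14 Pool.Agent.PB3 Pool.Agent.PF54

/-- Let `ρ` be an irreducible representation of finite dimension `r` of the pure braid group on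
`n` strands.  Put `b = r`, but `b = 5` if `r = 4`.  Then `ρ` is, up to a character, a
subrepresentation of the first cohomology of the cyclic cover given by some `t`
(`InCyclicCovers`), or `ρ` is, up to a character, the pullback of a representation `σ` of the pure
braid group on `m` of the strands, where `m ≤ b`, or `m = b + 1` and `σ` is scalar on the loops of
the strands around all the others (`FromFew`), or `r` is `4`, `6` or `8` and `ρ` is the tensor
product of the pullback of a representation of rank two of the fundamental group of the line
minus three points under a forgetful map or a cross ratio map and of an irreducible
representation of rank `r / 2` (`TimesLine`).  If the eigenvalues of all `ρ (A i j)` are roots of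
unity then the characters and `t` have finite order and the factors have the same property. -/
theorem result {n : ℕ} {V : Type*} [AddCommGroup V] [Module ℂ V] [FiniteDimensional ℂ V]
    (ρ : Representation ℂ (PureBraid n) V) [ρ.IsIrreducible] :
    InCyclicCovers ρ ∨ FromFew ρ (bnd (Module.finrank ℂ V)) ∨
      (IsExc (Module.finrank ℂ V) ∧ TimesLine ρ (Module.finrank ℂ V / 2)) :=
  final ρ

end Pool.Agent.Results.MP_e3793a_ag.PureFormanek
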